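import Mathlib
import Pool.Agent.H892.KT.Stm

/-!
# Trace zero gives an index with vanishing entry (project KT, MP_686bb6_ag)
-/

set_option autoImplicit false

namespace Pool.Agent.H661.KT

open Pool.Agent.H892.KT

theorem t_TRACE (h1 : S_FD) : S_TRACE := by
  intro n hn K hT
  obtain ⟨k, rfl⟩ : ∃ k, n = k + 1 := ⟨n - 1, by have := NeZero.ne n; omega⟩
  obtain ⟨A, hA, hAv⟩ := h1 (k + 1) K k 0
  unfold KatoData.TraceZero at hT
  rw [hA.fderiv] at hT
  obtain ⟨m, hm⟩ := hT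
  generalize hc : (fderiv ℂ (K.σ 0) 0 (0, 1)).2 *
    ∏ j ∈ Finset.range k, (fderiv ℂ (K.σ (0 + 1 + (j : ZMod (k + 1)))) 0 (0, 1)).2 = c
  have hA1 : A (0, 1) = (0, c) := by rw [hAv, hc]
  have hpow : ∀ m : ℕ, (A ^ m) (0, 1) = (0, c ^ m) := by
    intro m
    induction m with
    | zero => simp
    | succ m ih =>
      rw [pow_succ']
      show A ((A ^ m) (0, 1)) = (0, c ^ (m + 1))
      rw [ih]
      have h2 : ((0 : ℂ), c ^ m) = c ^ m • ((0 : ℂ), (1 : ℂ)) := by simp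
      rw [h2, map_smul, hA1]
      simp [pow_succ]
  have h3 := hpow m
  rw [hm] at h3
  have h4 : (0 : ℂ) = c ^ m := congrArg Prod.snd h3
  have h5 : c = 0 := by
    by_contra hne
    exact pow_ne_zero m hne h4.symm
  rw [h5] at hc
  rcases mul_eq_zero.1 hc with h | h
  · exact ⟨0, h⟩
  · obtain ⟨j, _, hj⟩ := Finset.prod_eq_zero_iff.1 h
    exact ⟨_, hj⟩

end Pool.Agent.H661.KT
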